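import Pool.Agent.H95.WH.Defs

/-!
# The assembly map in degree one for the family of finite subgroups

For a commutative ring `R` and a group `G`, `Wh R G` is the quotient of `K₁(R[G])` by the classes of
`-1` and of the elements of `G`. For a family `𝓕` of subgroups of `G`, `ColimWh R G 𝓕` is the
colimit of the groups `Wh(R; F)` over the subgroups `F` in `𝓕`, the morphisms `F → F'` being the
restrictions of the conjugations `x ↦ g x g⁻¹` with `g F g⁻¹ ⊆ F'`, and `assembly R G 𝓕` is the
natural map from it to `Wh R G`.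
-/

set_option autoImplicit false

open Matrix

universe u v w

namespace Pool.Agent.H71.DO

open Pool.Agent.H95.WH (K1 K1.mk K1.unit K1.map K1.map_unit K1.map_map K1_map_conj FamSub conjHom)

section Wh

variable (R : Type u) [CommRing R]

/-- The element `g` of the group as a unit of the group ring. -/
noncomputable def grpUnit (G : Type v) [Group G] : G →* (MonoidAlgebra R G)ˣ :=
  (Units.map (MonoidAlgebra.of R G)).comp toUnits.toMonoidHom

/-- The subgroup of `K₁(R[G])` generated by the classes of `-1` and of the elements of `G`. -/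
noncomputable def WhRel (G : Type v) [Group G] : AddSubgroup (K1 (MonoidAlgebra R G)) :=
  AddSubgroup.closure ({K1.unit (-1)} ∪ Set.range fun g : G => K1.unit (grpUnit R G g))

/-- The quotient of `K₁(R[G])` by the classes of `-1` and of the elements of `G`. -/
def Wh (G : Type v) [Group G] : Type (max u v) := K1 (MonoidAlgebra R G) ⧸ WhRel R G

noncomputable instance instWh (G : Type v) [Group G] : AddCommGroup (Wh R G) :=
  QuotientAddGroup.Quotient.addCommGroup (WhRel R G)

variable {G : Type v} [Group G] {H : Type v} [Group H] {L : Type v} [Group L]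

/-- The homomorphism `K₁(R[G]) → K₁(R[H])` induced by a group homomorphism `G → H`. -/
noncomputable def ind (φ : G →* H) : K1 (MonoidAlgebra R G) →+ K1 (MonoidAlgebra R H) :=
  K1.map (MonoidAlgebra.mapDomainRingHom R φ)

theorem ind_grpUnit (φ : G →* H) (g : G) :
    ind R φ (K1.unit (grpUnit R G g)) = K1.unit (grpUnit R H (φ g)) := by
  rw [ind, K1.map_unit]
  congr 1
  apply Units.ext
  change MonoidAlgebra.mapDomain φ (MonoidAlgebra.single g 1) = MonoidAlgebra.single (φ g) 1
  rw [MonoidAlgebra.mapDomain_single]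

theorem ind_neg_one (φ : G →* H) : ind R φ (K1.unit (-1)) = K1.unit (-1) := by
  rw [ind, K1.map_unit]
  congr 1
  apply Units.ext
  change (MonoidAlgebra.mapDomainRingHom R φ) (-1) = -1
  rw [map_neg, map_one]

/-- The homomorphism `Wh(R; G) → Wh(R; H)` induced by a group homomorphism `G → H`. -/
noncomputable def Wh.map (φ : G →* H) : Wh R G →+ Wh R H :=
  QuotientAddGroup.lift (WhRel R G) ((QuotientAddGroup.mk' (WhRel R H)).comp (ind R φ)) (by
    rw [WhRel, AddSubgroup.closure_le]
    rintro z (hz | ⟨g, rfl⟩)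
    · change QuotientAddGroup.mk' (WhRel R H) (ind R φ z) = 0
      rw [Set.mem_singleton_iff] at hz
      rw [hz, ind_neg_one]
      exact (QuotientAddGroup.eq_zero_iff _).2
        (AddSubgroup.subset_closure (Or.inl (Set.mem_singleton _)))
    · change QuotientAddGroup.mk' (WhRel R H) (ind R φ (K1.unit (grpUnit R G g))) = 0
      rw [ind_grpUnit]
      exact (QuotientAddGroup.eq_zero_iff _).2
        (AddSubgroup.subset_closure (Or.inr ⟨φ g, rfl⟩)))

/-- The projection `K₁(R[G]) → Wh(R; G)`. -/
noncomputable def Wh.mk (G : Type v) [Group G] : K1 (MonoidAlgebra R G) →+ Wh R G :=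
  QuotientAddGroup.mk' (WhRel R G)

theorem Wh.map_mk (φ : G →* H) (x : K1 (MonoidAlgebra R G)) :
    Wh.map R φ (Wh.mk R G x) = Wh.mk R H (ind R φ x) := rfl

theorem Wh.mk_surjective : Function.Surjective (Wh.mk R G) := QuotientAddGroup.mk_surjective

theorem Wh.mk_eq_zero {x : K1 (MonoidAlgebra R G)} : Wh.mk R G x = 0 ↔ x ∈ WhRel R G :=
  QuotientAddGroup.eq_zero_iff x

theorem ind_ind (φ : G →* H) (ψ : H →* L) (x : K1 (MonoidAlgebra R G)) :
    ind R ψ (ind R φ x) = ind R (ψ.comp φ) x := by
  rw [ind, ind, ind, K1.map_map, MonoidAlgebra.mapDomainRingHom_comp]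

end Wh

section Assembly

variable (R : Type u) [CommRing R] (G : Type v) [Group G] (𝓕 : Subgroup G → Prop)

/-- `⨁_F Wh(R; F)` over the subgroups `F` in the family `𝓕`. -/
abbrev SumWh : Type (max u v) := DirectSum (FamSub G 𝓕) (fun F => Wh R F.1)

/-- The inclusion of the summand of `F`. -/
noncomputable def inc (F : FamSub G 𝓕) : Wh R F.1 →+ SumWh R G 𝓕 :=
  open scoped Classical in DirectSum.of (fun F : FamSub G 𝓕 => Wh R F.1) F

/-- The relation `c_g(x) - x` of the colimit. -/
noncomputable def rel (F F' : FamSub G 𝓕) (g : G) (h : ∀ x ∈ F.1, g * x * g⁻¹ ∈ F'.1)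
    (x : Wh R F.1) : SumWh R G 𝓕 :=
  inc R G 𝓕 F' (Wh.map R (conjHom g F.1 F'.1 h) x) - inc R G 𝓕 F x

/-- The relations of the colimit: `c_g(x) = x` for `x ∈ Wh(R; F)`, `g F g⁻¹ ⊆ F'`. -/
noncomputable def colimRel : AddSubgroup (SumWh R G 𝓕) :=
  AddSubgroup.closure {z | ∃ F F' g h x, z = rel R G 𝓕 F F' g h x}

/-- The colimit of `Wh(R; F)` over the subgroups `F` in the family `𝓕`. -/
def ColimWh : Type (max u v) := SumWh R G 𝓕 ⧸ colimRel R G 𝓕

noncomputable instance instColimWh : AddCommGroup (ColimWh R G 𝓕) :=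
  QuotientAddGroup.Quotient.addCommGroup (colimRel R G 𝓕)

/-- The assembly map on the direct sum, given by the inclusions `F → G`. -/
noncomputable def assemblySum : SumWh R G 𝓕 →+ Wh R G :=
  open scoped Classical in
  DirectSum.toAddMonoid fun F : FamSub G 𝓕 => Wh.map R F.1.subtype

theorem assemblySum_inc (F : FamSub G 𝓕) (x : Wh R F.1) :
    assemblySum R G 𝓕 (inc R G 𝓕 F x) = Wh.map R F.1.subtype x := by
  classical
  rw [assemblySum, inc, DirectSum.toAddMonoid_of]

end Assembly

theorem single_inv' (R : Type u) [CommRing R] {G : Type v} [Group G] (g : G) :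
    (MonoidAlgebra.single g (1 : R)) * MonoidAlgebra.single g⁻¹ 1 = 1 := by
  rw [MonoidAlgebra.single_mul_single, mul_inv_cancel, one_mul]
  rfl

theorem single_inv (R : Type u) [CommRing R] {G : Type v} [Group G] (g : G) :
    (MonoidAlgebra.single g⁻¹ (1 : R)) * MonoidAlgebra.single g 1 = 1 := by
  rw [MonoidAlgebra.single_mul_single, inv_mul_cancel, one_mul]
  rfl

theorem ind_conj (R : Type u) [CommRing R] {G : Type v} [Group G] (g : G) (F F' : Subgroup G)
    (h : ∀ x ∈ F, g * x * g⁻¹ ∈ F') (x : K1 (MonoidAlgebra R F)) :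
    ind R F'.subtype (ind R (conjHom g F F' h) x) = ind R F.subtype x := by
  rw [ind, ind, ind, K1.map_map]
  apply K1_map_conj _ _ (MonoidAlgebra.single g 1) (MonoidAlgebra.single g⁻¹ 1)
    (single_inv' R g) (single_inv R g)
  intro r
  induction r using MonoidAlgebra.induction_linear with
  | zero => simp
  | add a b ha hb => rw [map_add, ha, hb, map_add, mul_add, add_mul]
  | single s t =>
    change MonoidAlgebra.mapDomain F'.subtype (MonoidAlgebra.mapDomain (conjHom g F F' h)
      (MonoidAlgebra.single s t)) = MonoidAlgebra.single g 1 *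
        MonoidAlgebra.mapDomain F.subtype (MonoidAlgebra.single s t) *
        MonoidAlgebra.single g⁻¹ 1
    rw [MonoidAlgebra.mapDomain_single, MonoidAlgebra.mapDomain_single,
      MonoidAlgebra.mapDomain_single, MonoidAlgebra.single_mul_single,
      MonoidAlgebra.single_mul_single, one_mul, mul_one]
    rfl

section Assembly2

variable (R : Type u) [CommRing R] (G : Type v) [Group G] (𝓕 : Subgroup G → Prop)

theorem colimRel_le : colimRel R G 𝓕 ≤ (assemblySum R G 𝓕).ker := by
  rw [colimRel, AddSubgroup.closure_le]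
  rintro z ⟨F, F', g, h, x, rfl⟩
  change assemblySum R G 𝓕 _ = 0
  rw [rel, map_sub, assemblySum_inc, assemblySum_inc]
  obtain ⟨x, rfl⟩ := Wh.mk_surjective R x
  rw [Wh.map_mk, Wh.map_mk, Wh.map_mk, ind_conj, sub_self]

/-- The assembly map for the family `𝓕`. -/
noncomputable def assembly : ColimWh R G 𝓕 →+ Wh R G :=
  QuotientAddGroup.lift (colimRel R G 𝓕) (assemblySum R G 𝓕) (colimRel_le R G 𝓕)

/-- The class in the colimit of an element of `Wh(R; F)`. -/
noncomputable def cl (F : FamSub G 𝓕) : Wh R F.1 →+ ColimWh R G 𝓕 :=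
  (QuotientAddGroup.mk' (colimRel R G 𝓕)).comp (inc R G 𝓕 F)

theorem assembly_cl (F : FamSub G 𝓕) (x : Wh R F.1) :
    assembly R G 𝓕 (cl R G 𝓕 F x) = Wh.map R F.1.subtype x := by
  change assemblySum R G 𝓕 (inc R G 𝓕 F x) = _
  rw [assemblySum_inc]

theorem cl_conj (F F' : FamSub G 𝓕) (g : G) (h : ∀ x ∈ F.1, g * x * g⁻¹ ∈ F'.1)
    (x : Wh R F.1) :
    cl R G 𝓕 F' (Wh.map R (conjHom g F.1 F'.1 h) x) = cl R G 𝓕 F x := by
  have h1 : rel R G 𝓕 F F' g h x ∈ colimRel R G 𝓕 :=
    AddSubgroup.subset_closure ⟨F, F', g, h, x, rfl⟩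
  have h2 : QuotientAddGroup.mk' (colimRel R G 𝓕) (rel R G 𝓕 F F' g h x) = 0 :=
    (QuotientAddGroup.eq_zero_iff _).2 h1
  rw [rel, map_sub, sub_eq_zero] at h2
  exact h2

end Assembly2

end Pool.Agent.H71.DO
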