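import Pool.Agent.H71.DO.Main
import Pool.Agent.H95.WH.ArtP

/-!
# Semilocal rings and rings of characteristic `p`
-/

set_option autoImplicit false

open Matrix

universe u v w

namespace Pool.Agent.H71.DO

open Pool.Agent.H95.WH (K1 K1.mk K1.unit K1.map FinSub detU det_semi)

theorem finite_fiber (R : Type u) [CommRing R] (S : Type v) [CommRing S] [Algebra R S]
    [Module.Finite R S] (f : MaximalSpectrum S → MaximalSpectrum R)
    (hf : ∀ M, (f M).asIdeal = M.asIdeal.comap (algebraMap R S)) (m : MaximalSpectrum R) :
    (f ⁻¹' {m}).Finite := by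
  have h1 : (m.asIdeal.primesOver S).Finite := Algebra.QuasiFinite.finite_primesOver m.asIdeal
  have h2 : Set.InjOn (fun M : MaximalSpectrum S => M.asIdeal) (f ⁻¹' {m}) := by
    intro a _ b _ hab
    exact MaximalSpectrum.ext hab
  refine Set.Finite.of_injOn (t := m.asIdeal.primesOver S) ?_ h2 h1
  intro M hM
  refine ⟨M.isMaximal.isPrime, ⟨?_⟩⟩
  have h3 : f M = m := hM
  rw [← h3, hf]

/-- A finite algebra over a ring with finitely many maximal ideals has finitely many maximal
ideals. -/
theorem finite_maximalSpectrum (R : Type u) [CommRing R] (S : Type v) [CommRing S] [Algebra R S]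
    [Module.Finite R S] [Finite (MaximalSpectrum R)] : Finite (MaximalSpectrum S) := by
  have hi : Algebra.IsIntegral R S := inferInstance
  let f : MaximalSpectrum S → MaximalSpectrum R := fun M =>
    ⟨M.asIdeal.comap (algebraMap R S), Ideal.isMaximal_comap_of_isIntegral_of_isMaximal M.asIdeal⟩
  have key : ((f ⁻¹' Set.univ) : Set (MaximalSpectrum S)).Finite := by
    refine Set.Finite.preimage' Set.finite_univ fun m _ => ?_
    exact finite_fiber R S f (fun _ => rfl) m
  rw [Set.preimage_univ] at key
  exact Set.finite_univ_iff.1 key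

theorem hUnit_semilocal (R : Type u) [CommRing R] [Finite (MaximalSpectrum R)] :
    HUnit.{u, v} R := by
  intro C _ _ _
  letI : CommGroup C := IsCyclic.commGroup
  apply unit_of_mk
  intro n U
  have hfin : Module.Finite R (MonoidAlgebra R C) := by
    have := Fintype.ofFinite C
    exact Module.Finite.of_basis (ι := C) (MonoidAlgebra.basis C R)
  have : Finite (MaximalSpectrum (MonoidAlgebra R C)) :=
    finite_maximalSpectrum R (MonoidAlgebra R C)
  exact ⟨1, detU U, one_pos, by rw [one_smul]; exact det_semi U⟩

theorem hArt_field (k : Type u) [Field k] : HArt.{u, v} k :=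
  fun F _ _ x => Pool.Agent.H95.WH.artin_K1_anyField k F x

theorem hArt_charP (k : Type u) [CommRing k] (p : ℕ) [Fact p.Prime] [CharP k p] : HArt.{u, v} k :=
  fun F _ _ x => Pool.Agent.H95.WH.artin_K1_charP k F p x

end Pool.Agent.H71.DO
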