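import Pool.Agent.H71.DO.Units

/-!
# Rational injectivity of the assembly map in degree one
-/

set_option autoImplicit false

open Matrix

universe u v w

namespace Pool.Agent.H71.DO

open Pool.Agent.H95.WH (FinSub)

/-- Rational injectivity from Artin induction and generation by units. -/
theorem assembly_injective_of {R : Type u} [CommRing R] [IsDomain R] (hA : HArt.{u, v} R)
    (hU : HUnit.{u, v} R) (G : Type v) [Group G] :
    Function.Injective (LinearMap.lTensor ℚ (assembly R G FinSub).toIntLinearMap) := by
  rw [injective_iff_map_eq_zero]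
  intro y hy
  obtain ⟨⟨z, m⟩, hz⟩ := IsLocalizedModule.surj (nonZeroDivisors ℤ)
    (TensorProduct.mk ℤ ℚ (ColimWh R G FinSub) 1) y
  have h1 : TensorProduct.mk ℤ ℚ (Wh R G) 1 (assembly R G FinSub z) = 0 := by
    have h2 : LinearMap.lTensor ℚ (assembly R G FinSub).toIntLinearMap
        (TensorProduct.mk ℤ ℚ (ColimWh R G FinSub) 1 z) = 0 := by
      have h3 := congrArg (LinearMap.lTensor ℚ (assembly R G FinSub).toIntLinearMap) hz
      rw [Submonoid.smul_def, map_smul, hy, smul_zero] at h3
      exact h3.symm
    exact h2
  obtain ⟨M, hM⟩ := (IsLocalizedModule.eq_zero_iff (nonZeroDivisors ℤ)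
    (TensorProduct.mk ℤ ℚ (Wh R G) 1)).1 h1
  obtain ⟨m', hm', h4⟩ := kernel_torsion_fin hA hU G z M (nonZeroDivisors.coe_ne_zero M) hM
  have h5 : TensorProduct.mk ℤ ℚ (ColimWh R G FinSub) 1 z = 0 :=
    (IsLocalizedModule.eq_zero_iff (nonZeroDivisors ℤ)
      (TensorProduct.mk ℤ ℚ (ColimWh R G FinSub) 1)).2
      ⟨⟨m', mem_nonZeroDivisors_of_ne_zero hm'⟩, h4⟩
  have h6 : m • y = m • 0 := by rw [hz, h5, smul_zero]
  exact IsLocalizedModule.smul_injective (TensorProduct.mk ℤ ℚ (ColimWh R G FinSub) 1) m h6

/-- The case of fields of characteristic zero. -/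
theorem injective_charZero (k : Type u) [Field k] [CharZero k] (G : Type v) [Group G] :
    Function.Injective (LinearMap.lTensor ℚ (assembly k G FinSub).toIntLinearMap) :=
  assembly_injective_of (hArt_charZero k) (hUnit_field k) G

/-- The case of domains which are finitely generated as abelian groups. -/
theorem injective_finite (R : Type u) [CommRing R] [IsDomain R] [Module.Finite ℤ R]
    (G : Type v) [Group G] :
    Function.Injective (LinearMap.lTensor ℚ (assembly R G FinSub).toIntLinearMap) := by
  have hA : HArt.{u, v} R := hArt_of R (finite_quot R)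
  have hU : HUnit.{u, v} R := by
    obtain ⟨p, hp⟩ := CharP.exists R
    rcases CharP.char_is_prime_or_zero R p with h1 | h1
    · have hfin : Finite R := by
        have h2 : Module.IsTorsion ℤ R := by
          intro x
          refine ⟨⟨(p : ℤ), mem_nonZeroDivisors_of_ne_zero (by exact_mod_cast h1.ne_zero)⟩, ?_⟩
          change (p : ℤ) • x = 0
          rw [natCast_zsmul, nsmul_eq_mul, CharP.cast_eq_zero, zero_mul]
        exact Module.finite_of_fg_torsion R h2
      have hf : IsField R := Finite.isField_of_domain R
      letI : Field R := hf.toField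
      exact hUnit_field R
    · subst h1
      have : CharZero R := CharP.charP_to_charZero R
      have h2 : Module.Free ℤ R := inferInstance
      exact hUnit_order R
  exact assembly_injective_of hA hU G

end Pool.Agent.H71.DO
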